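import Pool.Agent.P8H69.IE.Stm

/-! # Project IE: the package INQ -/

set_option autoImplicit false

namespace Pool.Agent.P8H85.IE

open Pool.Agent.P8H69.IE

lemma step (k d j : ℕ) (hj : j + 1 ≤ 2 * k + d) :
    (2 * k + d - (j + 1)).choose (2 * k) * (2 * k + d) ≤ d * (2 * k + d - j).choose (2 * k) := by
  obtain ⟨m, hm⟩ : ∃ m, 2 * k + d = m + 1 + j := ⟨2 * k + d - (j + 1), by omega⟩
  have h1 : 2 * k + d - (j + 1) = m := by omega
  have h2 : 2 * k + d - j = m + 1 := by omega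
  rw [h1, h2]
  have h3 := Nat.choose_mul_succ_eq m (2 * k)
  have h4 : (m + 1 - 2 * k) * (2 * k + d) ≤ d * (m + 1) := by
    rcases le_total (m + 1) (2 * k) with h | h
    · rw [Nat.sub_eq_zero_of_le h, zero_mul]
      exact Nat.zero_le _
    · obtain ⟨e, he⟩ := Nat.exists_eq_add_of_le h
      rw [he, Nat.add_sub_cancel_left]
      have h5 : e ≤ d := by omega
      nlinarith [Nat.mul_le_mul_left (2 * k) h5]
  refine Nat.le_of_mul_le_mul_right ?_ (Nat.succ_pos m)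
  calc m.choose (2 * k) * (2 * k + d) * (m + 1)
      = (m.choose (2 * k) * (m + 1)) * (2 * k + d) := by ring
    _ = (m + 1).choose (2 * k) * ((m + 1 - 2 * k) * (2 * k + d)) := by rw [h3]; ring
    _ ≤ (m + 1).choose (2 * k) * (d * (m + 1)) := Nat.mul_le_mul_left _ h4
    _ = d * (m + 1).choose (2 * k) * (m + 1) := by ring

theorem inq : S_INQ := by
  intro k d hk hd
  have s0 := step k d 0 (by omega)
  have s1 := step k d 1 (by omega)
  have s2 := step k d 2 (by omega)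
  have s3 := step k d 3 (by omega)
  simp only [Nat.zero_add, Nat.sub_zero, Nat.reduceAdd] at s0 s1 s2 s3
  obtain ⟨n, hn⟩ : ∃ n, n = 2 * k + d := ⟨_, rfl⟩
  rw [← hn] at s0 s1 s2 s3 ⊢
  obtain ⟨c, hc⟩ : ∃ c, c = (n - 4).choose (2 * k) := ⟨_, rfl⟩
  rw [← hc] at s3 ⊢
  have h4 : c * n ^ 4 ≤ d ^ 4 * n.choose (2 * k) := by
    calc c * n ^ 4 = (c * n) * n ^ 3 := by ring
      _ ≤ (d * (n - 3).choose (2 * k)) * n ^ 3 := Nat.mul_le_mul_right _ s3
      _ = d * ((n - 3).choose (2 * k) * n) * n ^ 2 := by ring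
      _ ≤ d * (d * (n - 2).choose (2 * k)) * n ^ 2 := by gcongr
      _ = d ^ 2 * ((n - 2).choose (2 * k) * n) * n := by ring
      _ ≤ d ^ 2 * (d * (n - 1).choose (2 * k)) * n := by gcongr
      _ = d ^ 3 * ((n - 1).choose (2 * k) * n) := by ring
      _ ≤ d ^ 3 * (d * n.choose (2 * k)) := by gcongr
      _ = d ^ 4 * n.choose (2 * k) := by ring
  have h5 : k ^ 2 * (n ^ 2 + n * (2 * d) ^ 2) ≤ n ^ 4 := by
    have h6 : 2 * k ≤ n := by omega
    have h7 : n * (2 * d) ^ 2 ≤ 2 * n ^ 2 := by nlinarith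
    have h8 : 4 * k ^ 2 ≤ n ^ 2 := by nlinarith
    calc k ^ 2 * (n ^ 2 + n * (2 * d) ^ 2) ≤ k ^ 2 * (4 * n ^ 2) := by
          apply Nat.mul_le_mul_left
          nlinarith
      _ = (4 * k ^ 2) * n ^ 2 := by ring
      _ ≤ n ^ 2 * n ^ 2 := Nat.mul_le_mul_right _ h8
      _ = n ^ 4 := by ring
  calc k ^ 2 * ((n ^ 2 + n * (2 * d) ^ 2) * c) = (k ^ 2 * (n ^ 2 + n * (2 * d) ^ 2)) * c := by ring
    _ ≤ n ^ 4 * c := Nat.mul_le_mul_right _ h5
    _ = c * n ^ 4 := by ring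
    _ ≤ d ^ 4 * n.choose (2 * k) := h4

end Pool.Agent.P8H85.IE
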